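import Pool.Agent.W428.MOT.EShort
import Pool.Agent.Q57.MC.Hyp

set_option autoImplicit false
set_option linter.unusedSectionVars false
set_option linter.unusedVariables false

/-! # The equivariant motivic zeta functions over a point: definitions -/

namespace Pool.Agent.Q57.QE

open MvPolynomial Pool.Agent.W428.MOT Pool.Agent.TH192.MT Pool.Agent.Q49.CO

/-- The polynomial `0` in no variables; its zero set is a point. -/
noncomputable abbrev pt0 (k : Type) [Field k] : MvPolynomial (Fin 0) k := 0

theorem constr_univ {k : Type} [Field k] {ι : Type} : Constr (Set.univ : Set (Pt k ι)) :=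
  Constr.univ

theorem constr_orig {k : Type} [Field k] {ι : Type} [Finite ι] :
    Constr ({0} : Set (Pt k ι)) := by
  have h1 : ({0} : Set (Pt k ι)) = {z | ∀ i, z i = 0} := by
    ext z
    exact ⟨fun h i => congrFun (Set.mem_singleton_iff.1 h) i, fun h => funext h⟩
  rw [h1]
  exact Constr.all fun i => Constr.eqz (IsPF.coord i)

section

variable {k : Type} [Field k] {m : ℕ}

/-- The weights of the action `ψ(t) ↦ ψ(λ t)` on the coefficients of the jets. -/
def wt (m N : ℕ) (p : Fin m × Fin (N + 1)) : ℤ := ((p.2 : ℕ) : ℤ)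

theorem ar_dact {N : ℕ} (l : AlgebraicClosure k) (z : Pt k (Fin m × Fin (N + 1))) (i : Fin m) :
    ar (dact (wt m N) l z) i = PowerSeries.rescale l (ar z i) := by
  ext j
  rw [PowerSeries.coeff_rescale, coeff_ar, coeff_ar]
  split_ifs with h
  · simp only [dact, wt]
    rw [zpow_natCast]
  · rw [mul_zero]

theorem aeval_rescale' (l : AlgebraicClosure k) (γ : Fin m → PowerSeries (AlgebraicClosure k))
    (f : MvPolynomial (Fin m) k) :
    aeval (fun i => PowerSeries.rescale l (γ i)) f = PowerSeries.rescale l (aeval γ f) :=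
  aeval_rescale l γ f

/-- The set of the `N`-jets `ψ` with `ψ(0) ∈ W` and `F(ψ) = t ^ N mod t ^ (N + 1)` is a variety with
action `ψ(t) ↦ ψ(λ t)` of `μ_N`. -/
theorem jetValidW (F : MvPolynomial (Fin m) k) {W : Set (Pt k (Fin m))} (hW : Constr W)
    (N : ℕ) (hN : 0 < N) :
    Valid (pt0 k) (JetS F W {1} N) (wt m N) N (fun i => i.elim0) where
  constr := by
    have hE : CE ({1} : Set (AlgebraicClosure k)) := ce_one
    exact Pool.Agent.Q57.MC.constr_JetS F hW hE N
  pos := hN
  stable := fun l hl z hz => by
    obtain ⟨h1, h2, h3⟩ := hz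
    have e1 : (fun i => ar (dact (wt m N) l z) i) = fun i => PowerSeries.rescale l (ar z i) :=
      funext fun i => ar_dact l z i
    refine ⟨?_, fun j hj => ?_, ?_⟩
    · have e2 : (fun i => dact (wt m N) l z (i, 0)) = fun i => z (i, 0) := by
        funext i
        simp [dact, wt]
      rw [e2]
      exact h1
    · change PowerSeries.coeff j (aeval (fun i => ar (dact (wt m N) l z) i) F) = 0
      rw [e1, aeval_rescale', PowerSeries.coeff_rescale, h2 j hj, mul_zero]
    · change PowerSeries.coeff N (aeval (fun i => ar (dact (wt m N) l z) i) F) ∈ _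
      rw [e1, aeval_rescale', PowerSeries.coeff_rescale, Set.mem_singleton_iff.1 h3, hl, one_mul]
      exact Set.mem_singleton _
  base := fun z _ => map_zero _
  inv := fun i => i.elim0

/-- The equivariant motivic zeta function `∑_{N ≥ 1} [X_{N,1,W}] 𝕃 ^ (- m N) T ^ N`, where `X_{N,1,W}`
is the set of the `N`-jets `ψ` with `ψ(0) ∈ W` and `F(ψ) = t ^ N mod t ^ (N + 1)`, with the action
`ψ(t) ↦ ψ(λ t)` of `μ_N`, as element of `𝓜^μ̂_k[[T]]`, `𝓜^μ̂_k` the localised Grothendieck ring of
varieties over `k` with action of `μ̂`. For `W = 0` this is the fibre over the origin of the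
motivic zeta function of Denef and Loeser, and for `W = 𝔸 ^ m` it is its direct image under
`{F = 0} → Spec k`. -/
noncomputable def zetaPt (F : MvPolynomial (Fin m) k) (W : Set (Pt k (Fin m))) (hW : Constr W) :
    PowerSeries (MKMu (pt0 k)) :=
  genR m (LuMu (pt0 k)) fun N h => algebraMap (K0Mu (pt0 k)) (MKMu (pt0 k))
    (K0Mu.mk (diagVar (jetValidW F hW N h)))

end

end Pool.Agent.Q57.QE
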