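import Pool.Agent.W358.ME.EK0
import Pool.Agent.W578.ME.Etw
import Pool.Agent.Q57.QE.Defs

set_option autoImplicit false
set_option linter.unusedSectionVars false
set_option linter.unusedVariables false

/-! # Classes of varieties with an action of `μ_d` which extends to an action of the torus -/

namespace Pool.Agent.Q57.QE

open MvPolynomial Pool.Agent.W428.MOT Pool.Agent.W578.ME Pool.Agent.W358.ME.EK0

variable {k : Type} [Field k] {n : ℕ} {f : MvPolynomial (Fin n) k} {R : Type} [CommRing R]

open Classical in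
/-- the support of a point -/
noncomputable def supp {ι : Type} [Fintype ι] (z : Pt k ι) : Finset ι :=
  Finset.univ.filter fun i => z i ≠ 0

/-- the points with support in a set -/
def US {ι : Type} [Fintype ι] (S : Set (Pt k ι)) (𝒥 : Finset (Finset ι)) : Set (Pt k ι) :=
  {z | z ∈ S ∧ supp z ∈ 𝒥}

section

variable {ι : Type} [Fintype ι]

theorem mem_supp (z : Pt k ι) (i : ι) : i ∈ supp z ↔ z i ≠ 0 := by
  classical
  simp [supp]

theorem supp_dact (ρ : ι → ℤ) {l : AlgebraicClosure k} (hl : l ≠ 0) (z : Pt k ι) :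
    supp (dact ρ l z) = supp z := by
  ext i
  rw [mem_supp, mem_supp]
  simp only [dact]
  constructor
  · intro h h'
    exact h (by rw [h', mul_zero])
  · intro h
    exact mul_ne_zero (zpow_ne_zero _ hl) h

theorem constr_supp (J : Finset ι) : Constr {z : Pt k ι | supp z = J} := by
  classical
  have h1 : {z : Pt k ι | supp z = J} = {z : Pt k ι | ∀ i, (z i ≠ 0 ↔ i ∈ J)} := by
    ext z
    constructor
    · intro h i
      rw [← mem_supp z i, h]
    · intro h
      ext i
      rw [mem_supp]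
      exact h i
  rw [h1]
  refine Constr.all fun i => ?_
  by_cases hi : i ∈ J
  · have h2 : {z : Pt k ι | z i ≠ 0 ↔ i ∈ J} = {z : Pt k ι | z i ≠ 0} := by
      ext z
      simp [hi]
    rw [h2]
    exact Constr.not (Constr.eqz (IsPF.coord i))
  · have h2 : {z : Pt k ι | z i ≠ 0 ↔ i ∈ J} = {z : Pt k ι | z i = 0} := by
      ext z
      simp [hi]
    rw [h2]
    exact Constr.eqz (IsPF.coord i)

theorem constr_US {S : Set (Pt k ι)} (hS : Constr S) (𝒥 : Finset (Finset ι)) :
    Constr (US S 𝒥) := by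
  have h1 : US S 𝒥 = S ∩ {z : Pt k ι | ∃ J ∈ 𝒥, supp z = J} := by
    ext z
    constructor
    · rintro ⟨h, h'⟩
      exact ⟨h, _, h', rfl⟩
    · rintro ⟨h, J, hJ, h'⟩
      exact ⟨h, by rw [h']; exact hJ⟩
  rw [h1]
  exact hS.inter (Constr.bexFinset 𝒥 fun J _ => constr_supp J)

theorem valid_US {S : Set (Pt k ι)} {ρ : ι → ℤ} {d : ℕ} {β : Fin n → Option ι}
    (hV : Valid f S ρ d β) (𝒥 : Finset (Finset ι)) : Valid f (US S 𝒥) ρ d β where
  constr := constr_US hV.constr 𝒥
  pos := hV.pos
  stable := fun l hl z hz => ⟨hV.stable l hl z hz.1, by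
    rw [supp_dact ρ (ne_zero_of_pow hV.pos hl)]
    exact hz.2⟩
  base := fun z hz => hV.base z hz.1
  inv := hV.inv

theorem US_empty (S : Set (Pt k ι)) : US S ∅ = ∅ := by
  ext z
  simp [US]

theorem US_insert [DecidableEq ι] (S : Set (Pt k ι)) (J : Finset ι) (𝒥 : Finset (Finset ι)) :
    US S (insert J 𝒥) = US S {J} ∪ US S 𝒥 := by
  ext z
  simp only [US, Set.mem_ofPred_eq, Finset.mem_insert, Finset.mem_singleton, Set.mem_union]
  tauto

theorem chi_empty' (M : EMeas f R) (ρ : ι → ℤ) (d : ℕ) (β : Fin n → Option ι)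
    (h : Valid f (∅ : Set (Pt k ι)) ρ d β) : M.χ ι ∅ ρ d β = 0 := by
  have h1 := M.add ∅ ∅ ρ d β h h (Set.disjoint_empty _)
  rw [Set.union_empty] at h1
  have h2 : M.χ ι ∅ ρ d β + 0 = M.χ ι ∅ ρ d β + M.χ ι ∅ ρ d β := by rw [add_zero]; exact h1
  exact (add_left_cancel h2).symm

/-- **The class of a variety with an action of `μ_d` which extends to an action of the torus is the
class with the trivial action.** -/
theorem gm_trivial (M : EMeas f R) {S : Set (Pt k ι)} {ρ : ι → ℤ} {d : ℕ} {β : Fin n → Option ι}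
    (hV : Valid f S ρ d β)
    (hG : ∀ s : AlgebraicClosure k, s ≠ 0 → ∀ z ∈ S, dact ρ s z ∈ S)
    (hV0 : Valid f S 0 1 β) : M.χ ι S ρ d β = M.χ ι S 0 1 β := by
  classical
  have key : ∀ 𝒥 : Finset (Finset ι), M.χ ι (US S 𝒥) ρ d β = M.χ ι (US S 𝒥) 0 1 β := by
    intro 𝒥
    induction 𝒥 using Finset.induction_on with
    | empty =>
      have h1 := valid_US hV ∅
      have h2 := valid_US hV0 ∅
      rw [US_empty] at h1 h2 ⊢
      rw [chi_empty' M _ _ _ h1, chi_empty' M _ _ _ h2]
    | insert J 𝒥 hJ ih =>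
      have hd : Disjoint (US S {J}) (US S 𝒥) := by
        rw [Set.disjoint_left]
        rintro z ⟨_, h1⟩ ⟨_, h2⟩
        rw [Finset.mem_singleton] at h1
        rw [h1] at h2
        exact hJ h2
      rw [US_insert, M.add _ _ _ _ _ (valid_US hV _) (valid_US hV _) hd,
        M.add _ _ _ _ _ (valid_US hV0 _) (valid_US hV0 _) hd, ih]
      congr 1
      set ρ' : ι → ℤ := fun i => if i ∈ J then ρ i else 0 with hρ'
      have hdact : ∀ (l : AlgebraicClosure k), ∀ z ∈ US S {J}, dact ρ' l z = dact ρ l z := by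
        rintro l z ⟨_, h1⟩
        rw [Finset.mem_singleton] at h1
        funext i
        simp only [dact, hρ']
        by_cases hi : i ∈ J
        · rw [if_pos hi]
        · rw [if_neg hi]
          have h2 : z i = 0 := by
            by_contra h3
            exact hi (h1 ▸ (mem_supp z i).2 h3)
          rw [h2, mul_zero, mul_zero]
      have hV1 := valid_US hV {J}
      have hV' : Valid f (US S {J}) ρ' d β := by
        refine ⟨hV1.constr, hV1.pos, fun l hl z hz => ?_, hV1.base, fun i j hij => ?_⟩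
        · rw [hdact l z hz]
          exact hV1.stable l hl z hz
        · simp only [hρ']
          rw [hV.inv i j hij, ite_self]
      have e1 : M.χ ι (US S {J}) ρ d β = M.χ ι (US S {J}) ρ' d β := by
        refine M.iso _ _ ρ ρ' d d β β hV1 hV' id id (regularOn_poly (fun i => IsPF.coord _) _)
          (regularOn_poly (fun i => IsPF.coord _) _) (fun z hz => hz) (fun z hz => hz)
          (fun z _ => rfl) (fun z _ => rfl) (fun z _ => rfl) ?_
        intro l _ z hz
        exact (hdact _ z hz).symm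
      rw [e1]
      refine etw M _ ρ' 0 d 1 β hV' (valid_US hV0 {J}) ?_ ?_
      · rintro z ⟨_, hz⟩ i hi
        rw [Finset.mem_singleton] at hz
        rw [← mem_supp, hz]
        by_contra h1
        apply hi
        simp only [hρ', if_neg h1, Pi.zero_apply, mul_zero]
      · rintro s hs z hz
        have e2 : (fun i => ((1 : ℕ) : ℤ) * ρ' i - d * (0 : ι → ℤ) i) = ρ' := by
          funext i
          simp
        rw [e2, hdact s z hz]
        refine ⟨hG s hs z hz.1, ?_⟩
        rw [supp_dact ρ hs]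
        exact hz.2
  have h1 := key Finset.univ
  have h2 : US S Finset.univ = S := by
    ext z
    simp [US]
  rwa [h2] at h1

end

/-! ### The Grothendieck ring of varieties with an action of `μ̂` over a point -/

/-- a variety, with the trivial action -/
def triv (V : Var k) : MuVar (pt0 k) where
  N := V.n
  S := V.S
  constr := V.constr
  π := fun _ i => i.elim0
  regular_π := fun i => i.elim0
  π_mem := fun z _ => by rw [map_zero]
  d := 1
  d_pos := one_pos
  act := fun _ z => z
  regular_act := regularOn_poly (fun i => IsPF.coord (some i)) _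
  act_mem := fun _ _ _ hz => hz
  act_one := fun _ _ => rfl
  act_mul := fun _ _ _ _ _ _ => rfl
  π_act := fun _ _ _ _ => rfl

theorem pt_eq0 (a b : Pt k (Fin 0)) : a = b := funext fun i => i.elim0

theorem triv_iso (V W : Var k) (φ : Pt k (Fin V.n) → Pt k (Fin W.n))
    (ψ : Pt k (Fin W.n) → Pt k (Fin V.n)) (h1 : RegularOn V.S φ) (h2 : RegularOn W.S ψ)
    (h3 : Set.MapsTo φ V.S W.S) (h4 : Set.MapsTo ψ W.S V.S) (h5 : ∀ z ∈ V.S, ψ (φ z) = z)
    (h6 : ∀ w ∈ W.S, φ (ψ w) = w) : K0Mu.mk (triv V) = K0Mu.mk (triv W) :=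
  mk_iso (triv V) (triv W) φ ψ
    { regular := h1
      regular' := h2
      mapsTo := h3
      mapsTo' := h4
      left_inv := h5
      right_inv := h6
      overBase := fun _ _ => pt_eq0 _ _
      equivariant := fun _ _ _ _ => rfl }

theorem triv_scissors {m : ℕ} (S T : Set (Pt k (Fin m))) (hST : Disjoint S T) (hS : Constr S)
    (hT : Constr T) (hU : Constr (S ∪ T)) :
    K0Mu.mk (triv ⟨m, S ∪ T, hU⟩) = K0Mu.mk (triv ⟨m, S, hS⟩) + K0Mu.mk (triv ⟨m, T, hT⟩) := by
  have hd : (S ∪ T) \ S = T := by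
    ext z
    constructor
    · rintro ⟨h1, h2⟩
      exact h1.resolve_left h2
    · intro h
      exact ⟨Or.inr h, fun h' => Set.disjoint_left.1 hST h' h⟩
  have hT' : Constr ((triv ⟨m, S ∪ T, hU⟩ : MuVar (pt0 k)).S \ S) := by
    change Constr ((S ∪ T) \ S)
    rw [hd]
    exact hT
  have h1 := mk_eq_of_rel (RelMu.scissors (triv ⟨m, S ∪ T, hU⟩) S hS Set.subset_union_left
    (fun _ _ z hz => hz) hT' (fun _ _ z hz => hz))
  rw [map_add] at h1
  have h2 : K0Mu.mk ((triv ⟨m, S ∪ T, hU⟩ : MuVar (pt0 k)).restrict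
      ((triv ⟨m, S ∪ T, hU⟩ : MuVar (pt0 k)).S \ S) hT' Set.sdiff_subset fun _ _ z hz => hz) =
      K0Mu.mk (triv ⟨m, T, hT⟩) := by
    refine mk_iso _ _ id id
      { regular := regularOn_poly (fun i => IsPF.coord _) _
        regular' := regularOn_poly (fun i => IsPF.coord _) _
        mapsTo := fun z hz => ?_
        mapsTo' := fun z hz => ?_
        left_inv := fun _ _ => rfl
        right_inv := fun _ _ => rfl
        overBase := fun _ _ => rfl
        equivariant := fun _ _ _ _ => rfl }
    · have h3 : z ∈ (S ∪ T) \ S := hz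
      rw [hd] at h3
      exact h3
    · have h3 : z ∈ (S ∪ T) \ S := by
        rw [hd]
        exact hz
      exact h3
  exact h1.trans (congrArg₂ (· + ·) rfl h2)

theorem triv_prod (V W : Var k) (h : Constr (prodSet V.S W.S)) :
    K0Mu.mk (triv ⟨V.n + W.n, prodSet V.S W.S, h⟩) = K0Mu.mk (triv V) * K0Mu.mk (triv W) := by
  have ha : ∀ (v : Pt k (Fin V.n)) (w : Pt k (Fin W.n)),
      (fun i => Fin.append v w (Fin.castAdd W.n i)) = v := by
    intro v w
    funext i
    rw [Fin.append_left]
  have hb : ∀ (v : Pt k (Fin V.n)) (w : Pt k (Fin W.n)),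
      (fun i => Fin.append v w (Fin.natAdd V.n i)) = w := by
    intro v w
    funext i
    rw [Fin.append_right]
  have hc : ∀ z : Pt k (Fin (V.n + W.n)),
      Fin.append (fun i => z (Fin.castAdd W.n i)) (fun i => z (Fin.natAdd V.n i)) = z := by
    intro z
    exact Fin.append_castAdd_natAdd
  have hm : ∀ v ∈ V.S, ∀ w ∈ W.S, (Fin.append v w : Pt k (Fin (V.n + W.n))) ∈
      prodSet V.S W.S := by
    intro v hv w hw
    refine ⟨?_, ?_⟩
    · rw [ha v w]
      exact hv
    · rw [hb v w]
      exact hw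
  have hreg : ∀ S : Set (Pt k (Fin V.n ⊕ Fin W.n)), RegularOn S
      (fun w => Fin.append (fun i => w (Sum.inl i)) (fun i => w (Sum.inr i)) :
        Pt k (Fin V.n ⊕ Fin W.n) → Pt k (Fin (V.n + W.n))) := by
    intro S
    refine regularOn_poly (fun i => ?_) _
    refine Fin.addCases (fun i => ?_) (fun i => ?_) i
    · simp only [Fin.append_left]
      exact IsPF.coord _
    · simp only [Fin.append_right]
      exact IsPF.coord _
  have h1 : IsFibreProd (triv V) (triv W) (triv ⟨V.n + W.n, prodSet V.S W.S, h⟩)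
      (fun z i => z (Fin.castAdd W.n i)) (fun z i => z (Fin.natAdd V.n i))
      (fun w => Fin.append (fun i : Fin V.n => w (Sum.inl i)) (fun i : Fin W.n => w (Sum.inr i))) :=
    { regular_p := regularOn_poly (fun i => IsPF.coord _) _
      regular_q := regularOn_poly (fun i => IsPF.coord _) _
      regular_j := hreg _
      mapsTo := fun z hz => ⟨hz.1, hz.2, pt_eq0 _ _, pt_eq0 _ _⟩
      mapsTo' := fun v hv w hw _ => by
        exact ⟨hm v hv w hw, ha v w, hb v w⟩
      inj := fun z _ => hc z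
      equivariant_p := fun _ _ _ _ => rfl
      equivariant_q := fun _ _ _ _ => rfl }
  have h2 := mk_eq_of_rel (RelMu.prod _ _ _ _ _ _ h1)
  rw [map_mul] at h2
  exact h2

theorem triv_one (h : Constr (Set.univ : Set (Pt k (Fin 0)))) :
    K0Mu.mk (triv ⟨0, Set.univ, h⟩) = 1 := by
  have h1 : K0Mu.mk (triv ⟨0, Set.univ, h⟩) = K0Mu.mk (MuVar.base (pt0 k)) := by
    refine mk_iso (triv ⟨0, Set.univ, h⟩) (MuVar.base (pt0 k)) (fun z => z) (fun z => z) ?_
    exact
      { regular := regularOn_poly (fun i => IsPF.coord i) _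
        regular' := regularOn_poly (fun i => IsPF.coord i) _
        mapsTo := fun z _ => map_zero (aeval (z : Pt k (Fin 0)) :
          MvPolynomial (Fin 0) k →ₐ[k] AlgebraicClosure k)
        mapsTo' := fun z hz => Set.mem_univ _
        left_inv := fun _ _ => rfl
        right_inv := fun _ _ => rfl
        overBase := fun _ _ => pt_eq0 _ _
        equivariant := fun _ _ _ _ => rfl }
  have h2 := mk_eq_of_rel (RelMu.one (f := pt0 k))
  rw [map_one] at h2
  exact h1.trans h2

theorem rel_zero (x : MvPolynomial (Var k) ℤ) (hx : Rel k x) :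
    eval₂Hom (Int.castRingHom (K0Mu (pt0 k))) (fun V => K0Mu.mk (triv V)) x = 0 := by
  cases hx with
  | iso V W f g hf hg hfm hgm hgf hfg =>
    rw [map_sub, eval₂Hom_X', eval₂Hom_X', triv_iso V W f g hf hg hfm hgm hgf hfg, sub_self]
  | scissors S T hST hS hT hU =>
    rw [map_sub, map_add, eval₂Hom_X', eval₂Hom_X', eval₂Hom_X', triv_scissors S T hST hS hT hU,
      sub_self]
  | prod V W h =>
    rw [map_sub, map_mul, eval₂Hom_X', eval₂Hom_X', eval₂Hom_X', triv_prod V W h, sub_self]
  | one h => rw [map_sub, eval₂Hom_X', map_one, triv_one h, sub_self]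

/-- the ring homomorphism `K₀(Var_k) → K₀^μ̂(Var_k)`: the trivial action -/
noncomputable def psi0 (k : Type) [Field k] : K0 k →+* K0Mu (pt0 k) :=
  Ideal.Quotient.lift _ (eval₂Hom (Int.castRingHom (K0Mu (pt0 k))) fun V => K0Mu.mk (triv V))
    fun x hx => by
      have h1 : Ideal.span {x | Rel k x} ≤ RingHom.ker (eval₂Hom
          (Int.castRingHom (K0Mu (pt0 k))) fun V => K0Mu.mk (triv V)) :=
        Ideal.span_le.2 fun x hx => rel_zero x hx
      exact h1 hx

theorem psi0_mk (V : Var k) : psi0 k (K0.mk V) = K0Mu.mk (triv V) := by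
  unfold psi0 K0.mk
  exact (Ideal.Quotient.lift_mk _ _ _).trans (eval₂Hom_X' _ _ _)

theorem psi0_L : psi0 k (LK k) = LMu (pt0 k) := by
  have h0 : Constr (toFin (Set.univ : Set (Pt k (Fin 1)))) := by
    have h0' : toFin (Set.univ : Set (Pt k (Fin 1))) = {z | True} := by
      ext z
      exact ⟨fun _ => trivial, fun _ => Set.mem_univ _⟩
    rw [h0']
    exact Constr.const True
  have h1 : LK k = K0.mk ⟨Fintype.card (Fin 1), toFin Set.univ, h0⟩ := by
    unfold LK cls
    rw [dif_pos h0]
  rw [h1, psi0_mk]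
  have hc : Fintype.card (Fin 1) = 0 + 1 := rfl
  refine mk_iso _ (MuVar.aff (pt0 k) 1) (fun z i => z (Fin.cast hc.symm i))
    (fun z i => z (Fin.cast hc i)) ?_
  exact
    { regular := regularOn_poly (fun i => IsPF.coord _) _
      regular' := regularOn_poly (fun i => IsPF.coord _) _
      mapsTo := fun z _ => map_zero (aeval _ : MvPolynomial (Fin 0) k →ₐ[k] AlgebraicClosure k)
      mapsTo' := fun z hz => Set.mem_univ (fun i : Fin 1 =>
        (fun i => z (Fin.cast hc i) : Pt k (Fin (Fintype.card (Fin 1)))) (Fintype.equivFin _ i))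
      left_inv := fun _ _ => rfl
      right_inv := fun _ _ => rfl
      overBase := fun _ _ => pt_eq0 _ _
      equivariant := fun _ _ _ _ => rfl }

/-- The ring homomorphism `𝓜_k → 𝓜^μ̂_k`: the trivial action. -/
noncomputable def psi (k : Type) [Field k] : MK k →+* MKMu (pt0 k) :=
  IsLocalization.Away.lift (LK k)
    (g := (algebraMap (K0Mu (pt0 k)) (MKMu (pt0 k))).comp (psi0 k)) (by
      rw [RingHom.comp_apply, psi0_L]
      exact IsLocalization.Away.algebraMap_isUnit (S := MKMu (pt0 k)) (LMu (pt0 k)))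

theorem psi_algebraMap (x : K0 k) : psi k (algebraMap (K0 k) (MK k) x) =
    algebraMap (K0Mu (pt0 k)) (MKMu (pt0 k)) (psi0 k x) := by
  unfold psi
  rw [IsLocalization.Away.lift_eq]
  rfl

theorem psi_Lu : Units.map (psi k : MK k →* MKMu (pt0 k)) (Lu k) = LuMu (pt0 k) := by
  apply Units.ext
  change psi k (((Lu k : (MK k)ˣ)) : MK k) = ((LuMu (pt0 k) : (MKMu (pt0 k))ˣ) : MKMu (pt0 k))
  have h1 : (((Lu k : (MK k)ˣ)) : MK k) = algebraMap (K0 k) (MK k) (LK k) := rfl
  have h2 : ((LuMu (pt0 k) : (MKMu (pt0 k))ˣ) : MKMu (pt0 k)) =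
    algebraMap (K0Mu (pt0 k)) (MKMu (pt0 k)) (LMu (pt0 k)) := rfl
  rw [h1, h2, psi_algebraMap, psi0_L]

theorem valid_zero {ι : Type} {S : Set (Pt k ι)} {ρ : ι → ℤ} {d : ℕ} {β : Fin n → Option ι}
    (hV : Valid f S ρ d β) : Valid f S 0 1 β where
  constr := hV.constr
  pos := one_pos
  stable := fun l _ z hz => by
    have h1 : dact (0 : ι → ℤ) l z = z := by
      funext i
      simp [dact]
    rw [h1]
    exact hz
  base := hV.base
  inv := fun _ _ _ => rfl

/-- **The class of a variety with an action of `μ_d` which extends to an action of the torus.** -/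
theorem psi0_cls [CharZero k] {ι : Type} [Fintype ι] {S : Set (Pt k ι)} {ρ : ι → ℤ} {d : ℕ}
    {β : Fin 0 → Option ι} (hV : Valid (pt0 k) S ρ d β)
    (hG : ∀ s : AlgebraicClosure k, s ≠ 0 → ∀ z ∈ S, dact ρ s z ∈ S) :
    psi0 k (cls ι S) = K0Mu.mk (diagVar hV) := by
  obtain ⟨M, hL, hM⟩ := Pool.Agent.W358.ME.EK0.main k (pt0 k)
  rw [← hM ι S ρ d β hV, gm_trivial M hV hG (valid_zero hV), hM ι S 0 1 β (valid_zero hV)]
  have h0 : Constr (toFin S) := hV.constr.preimage
    (fun (z : Pt k (Fin (Fintype.card ι))) i => z (Fintype.equivFin ι i)) fun _ => IsPF.coord _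
  have h1 : cls ι S = K0.mk ⟨Fintype.card ι, toFin S, h0⟩ := by
    unfold cls
    rw [dif_pos h0]
  rw [h1, psi0_mk]
  refine mk_iso _ _ (fun z => z) (fun z => z) ?_
  exact
    { regular := regularOn_poly (fun i => IsPF.coord _) _
      regular' := regularOn_poly (fun i => IsPF.coord _) _
      mapsTo := fun z hz => hz
      mapsTo' := fun z hz => hz
      left_inv := fun _ _ => rfl
      right_inv := fun _ _ => rfl
      overBase := fun _ _ => pt_eq0 _ _
      equivariant := fun l _ z _ => by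
        change z = dact (fun i => (0 : ι → ℤ) ((Fintype.equivFin ι).symm i)) _ z
        funext i
        simp [dact] }

end Pool.Agent.Q57.QE
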