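import Pool.Agent.Q57.QE.Gm
import Pool.Agent.Q57.MD.Rows

set_option autoImplicit false
set_option linter.unusedSectionVars false
set_option linter.unusedVariables false

/-! # The equivariant motivic zeta functions over a point -/

namespace Pool.Agent.Q57.QE

open MvPolynomial Pool.Agent.W428.MOT Pool.Agent.TH192.MT Pool.Agent.W578.ME Pool.Agent.Q49.CO
open Pool.Agent.Q57.MC (hypF)

section hyp

variable {n r : ℕ}

/-- The twisted weights. -/
def tw (n r N : ℕ) (p : Fin (n + r) × Fin (N + 1)) : ℤ :=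
  ((p.2 : ℕ) : ℤ) + Fin.addCases (motive := fun _ => ℤ) (fun _ => 0) (fun _ => -(N : ℤ)) p.1

theorem tw_x (N : ℕ) (i : Fin n) (j : Fin (N + 1)) : tw n r N (Fin.castAdd r i, j) = (j : ℕ) := by
  simp [tw]

theorem tw_y (N : ℕ) (i : Fin r) (j : Fin (N + 1)) :
    tw n r N (Fin.natAdd n i, j) = (j : ℕ) - (N : ℤ) := by
  simp [tw, sub_eq_add_neg]

theorem ar_x {N : ℕ} (l : AlgebraicClosure ℂ) (z : Pt ℂ (Fin (n + r) × Fin (N + 1)))
    (i : Fin n) : ar (dact (tw n r N) l z) (Fin.castAdd r i) =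
      PowerSeries.rescale l (ar z (Fin.castAdd r i)) := by
  ext j
  rw [PowerSeries.coeff_rescale, coeff_ar, coeff_ar]
  split_ifs with h
  · simp only [dact]
    rw [tw_x, zpow_natCast]
  · rw [mul_zero]

theorem ar_y {N : ℕ} {l : AlgebraicClosure ℂ} (hl : l ≠ 0)
    (z : Pt ℂ (Fin (n + r) × Fin (N + 1)))
    (i : Fin r) : ar (dact (tw n r N) l z) (Fin.natAdd n i) =
      PowerSeries.C (l ^ (-(N : ℤ))) * PowerSeries.rescale l (ar z (Fin.natAdd n i)) := by
  ext j
  rw [PowerSeries.coeff_C_mul, PowerSeries.coeff_rescale, coeff_ar, coeff_ar]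
  split_ifs with h
  · simp only [dact]
    rw [tw_y, sub_eq_add_neg, zpow_add₀ hl, zpow_natCast]
    ring
  · rw [mul_zero, mul_zero]

theorem aeval_hypF {A : Type} [CommRing A] [Algebra ℂ A] (f : Fin r → MvPolynomial (Fin n) ℂ)
    (γ : Fin (n + r) → A) : aeval γ (hypF f) =
      ∑ j, γ (Fin.natAdd n j) * aeval (fun i => γ (Fin.castAdd r i)) (f j) := by
  unfold hypF
  rw [map_sum]
  refine Finset.sum_congr rfl fun j _ => ?_
  rw [map_mul, aeval_X, aeval_rename]
  rfl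

theorem aeval_tw (f : Fin r → MvPolynomial (Fin n) ℂ) {N : ℕ} {l : AlgebraicClosure ℂ}
    (hl : l ≠ 0) (z : Pt ℂ (Fin (n + r) × Fin (N + 1))) :
    aeval (ar (dact (tw n r N) l z)) (hypF f) =
      PowerSeries.C (l ^ (-(N : ℤ))) * PowerSeries.rescale l (aeval (ar z) (hypF f)) := by
  rw [aeval_hypF, aeval_hypF, map_sum, Finset.mul_sum]
  refine Finset.sum_congr rfl fun j _ => ?_
  have e1 : (fun i => ar (dact (tw n r N) l z) (Fin.castAdd r i)) =
      fun i => PowerSeries.rescale l (ar z (Fin.castAdd r i)) := funext fun i => ar_x l z i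
  rw [ar_y hl, e1, map_mul, aeval_rescale', mul_assoc]

/-- the torus acts on the jets -/
theorem stable_tw (f : Fin r → MvPolynomial (Fin n) ℂ) {W : Set (Pt ℂ (Fin (n + r)))}
    (hW : ∀ (N : ℕ) (s : AlgebraicClosure ℂ), s ≠ 0 → ∀ z : Pt ℂ (Fin (n + r) × Fin (N + 1)),
      (fun i => z (i, 0)) ∈ W → (fun i => dact (tw n r N) s z (i, 0)) ∈ W)
    {N : ℕ} {s : AlgebraicClosure ℂ} (hs : s ≠ 0) {z : Pt ℂ (Fin (n + r) × Fin (N + 1))}
    (hz : z ∈ JetS (hypF f) W {1} N) : dact (tw n r N) s z ∈ JetS (hypF f) W {1} N := by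
  obtain ⟨h1, h2, h3⟩ := hz
  refine ⟨hW N s hs z h1, fun j hj => ?_, ?_⟩
  · rw [aeval_tw f hs, PowerSeries.coeff_C_mul, PowerSeries.coeff_rescale, h2 j hj, mul_zero,
      mul_zero]
  · rw [aeval_tw f hs, PowerSeries.coeff_C_mul, PowerSeries.coeff_rescale,
      Set.mem_singleton_iff.1 h3, mul_one, zpow_neg, zpow_natCast,
      inv_mul_cancel₀ (pow_ne_zero _ hs)]
    exact Set.mem_singleton _

/-- **The classes of the jets.** -/
theorem psi_jets (f : Fin r → MvPolynomial (Fin n) ℂ) {W : Set (Pt ℂ (Fin (n + r)))}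
    (hWc : Constr W)
    (hW : ∀ (N : ℕ) (s : AlgebraicClosure ℂ), s ≠ 0 → ∀ z : Pt ℂ (Fin (n + r) × Fin (N + 1)),
      (fun i => z (i, 0)) ∈ W → (fun i => dact (tw n r N) s z (i, 0)) ∈ W)
    (N : ℕ) (hN : 0 < N) :
    K0Mu.mk (diagVar (jetValidW (hypF f) hWc N hN)) =
      psi0 ℂ (cls _ (JetS (hypF f) W {1} N)) := by
  have hV := jetValidW (hypF f) hWc N hN
  have hV' : Valid (pt0 ℂ) (JetS (hypF f) W {1} N) (tw n r N) N (fun i => i.elim0) :=
    ⟨hV.constr, hN, fun l hl z hz => stable_tw f hW (ne_zero_of_pow hN hl) hz, hV.base,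
      fun i => i.elim0⟩
  rw [psi0_cls hV' fun s hs z hz => stable_tw f hW hs hz]
  refine Pool.Agent.W358.ME.EK0.iso _ _ _ _ N N _ _ hV hV' id id
    (regularOn_poly (fun i => IsPF.coord _) _) (regularOn_poly (fun i => IsPF.coord _) _)
    (fun z hz => hz) (fun z hz => hz) (fun z _ => rfl) (fun z _ => rfl)
    (fun z _ => pt_eq0 _ _) ?_
  intro l hl z _
  have hl' : (l ^ N) ^ N = 1 := by rw [← pow_mul]; exact hl
  have h0 : l ^ N ≠ 0 := ne_zero_of_pow hN hl'
  funext p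
  obtain ⟨i, j⟩ := p
  change dact (wt (n + r) N) (l ^ N) z (i, j) = dact (tw n r N) (l ^ N) z (i, j)
  simp only [dact]
  congr 1
  refine Fin.addCases (fun i => ?_) (fun i => ?_) i
  · rw [tw_x]
    rfl
  · rw [tw_y, sub_eq_add_neg, zpow_add₀ h0, zpow_neg, zpow_natCast (l ^ N) N, hl', inv_one, mul_one]
    rfl

end hyp

/-! ### Rational functions -/

section rat

theorem map_geo (K : Type) [Field K] (a b : ℤ) (hb : 0 < b) :
    PowerSeries.map (psi K) (geo K a b) = geoR (LuMu (pt0 K)) a b := by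
  have hbn : b.toNat ≠ 0 := by omega
  set u : (MKMu (pt0 K))ˣ := LuMu (pt0 K) with hu
  have h1 : ∀ (R : Type) [CommRing R] (w : Rˣ), (1 - PowerSeries.C ((w ^ a : Rˣ) : R) *
      PowerSeries.X ^ b.toNat) * geoR w a b = 1 := by
    intro R _ w
    unfold geoR
    refine PowerSeries.mul_invOfUnit _ _ ?_
    simp [hbn]
  have h2 : geo K a b = geoR (Lu K) a b := rfl
  have h3 := congrArg (PowerSeries.map (psi K)) (h1 (MK K) (Lu K))
  rw [map_mul, map_one, map_sub, map_one, map_mul, map_pow, PowerSeries.map_X,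
    PowerSeries.map_C] at h3
  have h4 : psi K (((Lu K) ^ a : (MK K)ˣ) : MK K) = ((u ^ a : (MKMu (pt0 K))ˣ) :
      MKMu (pt0 K)) := by
    rw [hu, ← psi_Lu, ← map_zpow]
    rfl
  rw [h4] at h3
  have h5 := h1 (MKMu (pt0 K)) u
  rw [h2]
  have h6 : PowerSeries.map (psi K) (geoR (Lu K) a b) = PowerSeries.map (psi K)
      (geoR (Lu K) a b) * ((1 - PowerSeries.C ((u ^ a : (MKMu (pt0 K))ˣ) : MKMu (pt0 K)) *
      PowerSeries.X ^ b.toNat) * geoR u a b) := by rw [h5, mul_one]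
  rw [h6, ← mul_assoc, mul_comm (PowerSeries.map (psi K) (geoR (Lu K) a b)), h3, one_mul]

theorem map_rat (K : Type) [Field K] {S : Set (ℤ × ℤ)} (hS : ∀ q ∈ S, 0 < q.2)
    {z : PowerSeries (MK K)} (hz : z ∈ ratRing K S) :
    InRat (LuMu (pt0 K)) S (PowerSeries.map (psi K) z) := by
  unfold InRat
  induction hz using Algebra.adjoin_induction with
  | mem x hx =>
    rcases hx with hx | ⟨p, hp, hx⟩
    · rw [Set.mem_singleton_iff.1 hx, PowerSeries.map_X]
      exact Algebra.subset_adjoin (Or.inl rfl)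
    · rw [hx, map_geo K _ _ (hS p hp)]
      exact Algebra.subset_adjoin (Or.inr ⟨p, hp, rfl⟩)
  | algebraMap a =>
    have h1 : PowerSeries.map (psi K) (algebraMap (MK K) (PowerSeries (MK K)) a) =
        algebraMap (MKMu (pt0 K)) (PowerSeries (MKMu (pt0 K))) (psi K a) := by
      change PowerSeries.map (psi K) (PowerSeries.C a) = PowerSeries.C (psi K a)
      rw [PowerSeries.map_C]
    rw [h1]
    exact Subalgebra.algebraMap_mem _ _
  | add x y _ _ hx hy =>
    rw [map_add]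
    exact Subalgebra.add_mem _ hx hy
  | mul x y _ _ hx hy =>
    rw [map_mul]
    exact Subalgebra.mul_mem _ hx hy

end rat

end Pool.Agent.Q57.QE
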