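import Pool.Agent.Q57.QE.Jets
import Pool.Agent.Q57.QM.Rows

set_option autoImplicit false
set_option linter.unusedSectionVars false
set_option linter.unusedVariables false

/-! # The equivariant motivic zeta functions of the hypersurfaces `∑ y_j f_j = 0` -/

namespace Pool.Agent.Q57.QE

open MvPolynomial Pool.Agent.W428.MOT Pool.Agent.TH192.MT Pool.Agent.TH192.DT
  Pool.Agent.W578.ME Pool.Agent.Q49.CO
open Pool.Agent.Y229 Pool.Agent.Q57.MC Pool.Agent.Q57.MD
open Pool.Agent.H628R4.TP (IsBFunction IsLocalBFunction)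
open Pool.Agent.W375.MG (zetaW zetaW_eq)

variable {n r : ℕ}

/-- the coefficients of the equivariant zeta function -/
theorem coeff_zetaPt (f : Fin r → MvPolynomial (Fin n) ℂ) {W : Set (Pt ℂ (Fin (n + r)))}
    (hWc : Constr W)
    (hW : ∀ (N : ℕ) (s : AlgebraicClosure ℂ), s ≠ 0 → ∀ z : Pt ℂ (Fin (n + r) × Fin (N + 1)),
      (fun i => z (i, 0)) ∈ W → (fun i => dact (tw n r N) s z (i, 0)) ∈ W) (N : ℕ) (hN : 0 < N) :
    PowerSeries.coeff N (zetaPt (hypF f) W hWc) =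
      psi ℂ (algebraMap (K0 ℂ) (MK ℂ) (cls _ (JetS (hypF f) W {1} N)) *
        (((Lu ℂ) ^ (-(((n + r) * N : ℕ) : ℤ)) : (MK ℂ)ˣ) : MK ℂ)) := by
  unfold zetaPt genR
  rw [PowerSeries.coeff_mk, dif_pos hN]
  beta_reduce
  rw [psi_jets f hWc hW N hN, map_mul, psi_algebraMap]
  congr 1
  rw [← psi_Lu, ← map_zpow]
  rfl

theorem coeff_zetaPt_zero {k : Type} [Field k] {m : ℕ} (F : MvPolynomial (Fin m) k)
    {W : Set (Pt k (Fin m))} (hWc : Constr W) :
    PowerSeries.coeff 0 (zetaPt F W hWc) = 0 := by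
  unfold zetaPt genR
  rw [PowerSeries.coeff_mk, dif_neg (lt_irrefl 0)]

/-- **The equivariant motivic zeta function at the origin of `∑ y_j f_j` is the motivic zeta function
with the trivial action.** -/
theorem zetaPt_origin (f : Fin r → MvPolynomial (Fin n) ℂ) :
    zetaPt (hypF f) {0} constr_orig = PowerSeries.map (psi ℂ) (zetaX (hypF f) 0) := by
  have hW : ∀ (N : ℕ) (s : AlgebraicClosure ℂ), s ≠ 0 →
      ∀ z : Pt ℂ (Fin (n + r) × Fin (N + 1)), (fun i => z (i, 0)) ∈ ({0} : Set (Pt ℂ (Fin (n + r)))) →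
        (fun i => dact (tw n r N) s z (i, 0)) ∈ ({0} : Set (Pt ℂ (Fin (n + r)))) := by
    intro N s _ z hz
    rw [Set.mem_singleton_iff] at hz ⊢
    funext i
    simp only [dact]
    rw [congrFun hz i, Pi.zero_apply, mul_zero]
  ext N
  rw [PowerSeries.coeff_map]
  rcases Nat.eq_zero_or_pos N with rfl | hN
  · rw [coeff_zetaPt_zero]
    unfold zetaX
    rw [PowerSeries.coeff_mk, if_pos rfl, map_zero]
  · rw [coeff_zetaPt f constr_orig hW N hN]
    unfold zetaX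
    rw [PowerSeries.coeff_mk, if_neg hN.ne']
    have hpt : ({fun i => algebraMap ℂ (AlgebraicClosure ℂ) ((0 : Fin (n + r) → ℂ) i)} :
        Set (Pt ℂ (Fin (n + r)))) = {0} := by
      congr 1
      funext i
      rw [Pi.zero_apply, Pi.zero_apply, map_zero]
    rw [hpt, Fintype.card_fin]

/-- **The direct image of the equivariant motivic zeta function of `∑ y_j f_j`.** -/
theorem zetaPt_univ (f : Fin r → MvPolynomial (Fin n) ℂ) :
    zetaPt (hypF f) Set.univ constr_univ = PowerSeries.map (psi ℂ)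
      (zetaW (hypF f) Set.univ - PowerSeries.C (PowerSeries.coeff 0
        (zetaW (hypF f) Set.univ))) := by
  have hW : ∀ (N : ℕ) (s : AlgebraicClosure ℂ), s ≠ 0 →
      ∀ z : Pt ℂ (Fin (n + r) × Fin (N + 1)), (fun i => z (i, 0)) ∈ (Set.univ : Set (Pt ℂ (Fin (n + r)))) →
        (fun i => dact (tw n r N) s z (i, 0)) ∈ (Set.univ : Set (Pt ℂ (Fin (n + r)))) :=
    fun N s _ z _ => Set.mem_univ _
  ext N
  rw [PowerSeries.coeff_map, map_sub]
  rcases Nat.eq_zero_or_pos N with rfl | hN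
  · rw [coeff_zetaPt_zero, PowerSeries.coeff_zero_C, sub_self, map_zero]
  · rw [coeff_zetaPt f constr_univ hW N hN, PowerSeries.coeff_C, if_neg hN.ne', sub_zero,
      zetaW_eq, zetaG_eq]
    unfold zetaM
    rw [PowerSeries.coeff_mk, Fintype.card_fin]

/-- **The strong equivariant motivic monodromy conjecture at the origin.** -/
theorem mu_origin {f : Fin r → MvPolynomial (Fin n) ℂ}
    (h : (∃ j, f j ≠ 0) ∧ ∃ S : Finset (ℤ × ℤ), StrongMC f S) :
    ∃ S : Finset (ℤ × ℤ), (∀ q ∈ S, q.1 < 0 ∧ 0 < q.2 ∧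
      (∀ b : Polynomial ℂ, IsBFunction (hypF f) b → b.eval ((q.1 : ℂ) / q.2) = 0) ∧
      ∀ b : Polynomial ℂ, IsLocalBFunction (hypF f) b → b.eval ((q.1 : ℂ) / q.2) = 0) ∧
      InRat (LuMu (pt0 ℂ)) S (zetaPt (hypF f) {0} constr_orig) := by
  obtain ⟨S, hS, hz⟩ := Pool.Agent.Q57.QM.hyp_origin h
  refine ⟨S, hS, ?_⟩
  rw [zetaPt_origin]
  exact map_rat ℂ (fun q hq => (hS q hq).2.1) hz

/-- **The direct image.** -/
theorem mu_global {f : Fin r → MvPolynomial (Fin n) ℂ}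
    (h : (∃ j, f j ≠ 0) ∧ ∃ S : Finset (ℤ × ℤ), GlobMC f S) :
    ∃ S : Finset (ℤ × ℤ), (∀ q ∈ S, q.1 < 0 ∧ 0 < q.2 ∧
      ∀ b : Polynomial ℂ, IsBFunction (hypF f) b → b.eval ((q.1 : ℂ) / q.2) = 0) ∧
      InRat (LuMu (pt0 ℂ)) S (zetaPt (hypF f) Set.univ constr_univ) := by
  obtain ⟨S, hS, hz, -⟩ := Pool.Agent.Q57.QM.hyp_mot h
  refine ⟨S, hS, ?_⟩
  rw [zetaPt_univ]
  refine map_rat ℂ (fun q hq => (hS q hq).2.1) (Subalgebra.sub_mem _ hz ?_)
  exact Subalgebra.algebraMap_mem _ _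

end Pool.Agent.Q57.QE
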